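import Pool.Agent.H37.MG.Fin

/-!
# Acylindrical actions on finite-dimensional CAT(0) cube complexes and the Farrell-Jones conjecture for A-theory

Let `C` be a class of groups with the inheritance properties `Inherits` to which the transfer criterion `Transfer` applies: a
finitely generated group `G` is in `C` if it acts on a compact contractible controlled `N`-dominated metric space `X` such that for
every finite subset `S` of `G` there is an open `G`-invariant cover of `G × X` of order at most `N + 1` with stabilisers in `C`,
whose members are equal to or disjoint from their translates, such that every set `g S × {x}` is contained in a member. The
class of the groups satisfying the Farrell-Jones conjecture for A-theory with coefficients and finite wreath products is such a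
class. A median graph is a connected graph in which any three vertices have exactly one median; these are the 1-skeleta of the
CAT(0) cube complexes (Chepoi, Gerasimov, Roller). We prove that `G` is in `C` if every finitely generated subgroup `K` of `G` acts by
automorphisms on a median graph `X` without induced `(n + 1)`-cubes such that the vertex stabilisers are in `C` and at most `N`
elements of `K` fix two vertices at distance at least `k` (`X`, `n`, `k` and `N` may depend on `K`). The action need not be cocompact,
and `X` need not be locally finite. Special cases: proper actions (finite vertex stabilisers of bounded order, `k = 0`; see also
`Pool.Agent.H92.CX.walls` for wall spaces), and acylindrical actions on trees (`n = 1`).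

Proof. (1) Duality (`H37/MG`, `H54/MG`). The half-spaces of `X` are a partially ordered set `H` with complements, of dimension at most
`n` (pairwise crossing half-spaces give a cube); the vertices of `X` are the ultrafilters on `H` at finite distance from a base
vertex, and the distance is the number of separating half-spaces.

(2) Induction over the dimension (`H92/CX`, `H92/CY`). We may assume that `G` is finitely generated and that every half-space separates
two translates of the base vertex. The stabiliser of a half-space `w` acts on the half-spaces which cross `w`; the vertices of this
smaller pocset lift to vertices of `H`, so the stabiliser of `w` is in `C`.

(3) The space (`H88/CX`). `X^` is the set of the functions `ψ : H → [0, 1]` with `ψ (h*) = 1 - ψ h` and `ψ h = 0` or `ψ k = 1` for `h < k`.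
It is compact, contractible and controlled `n`-dominated (homotopies which cut the coordinates at heights depending on the depth).

(4) Windows (`H54/CV`, `H37/CC`). Let `S` generate `G`. For a half-space `h` which does not contain `g` let `τ(h)` be the least `m` such that
`h` meets `g S ^ m`, and `s(h)` the sum of the `τ(k)`, `k ≥ h`. For half-spaces of depth at most `D` with `ψ > 0` which are nested
the numbers `s` differ by at least `s / D`, so one of `n + 1` thresholds `θ` is not near any `s(h)`, and the window `U(g, ψ)` of the
half-spaces of depth at most `D` with `ψ h` near `1` and `s < θ` is the same for `g` and `g s`, up to the first half-spaces. (If there
is a fractional half-space near `g` the finite set of these is a canonical object.) The window is a finite poset of width at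
most `n`, its upward closed subsets are vertices (positions). A position is saturated if below each of its next half-spaces
there is a long chain. Among `(n + 1) ^ 2` centres and `n + 1` scales there are a centre and a scale such that the region `Y(g, ψ)`
of the saturated positions near the centre is the same for `g` and `g s`, and not empty.

(5) Near symmetries (`H25/CN`, `H94/CL`, `H88/CX/Loc1`). An element `γ` of `G` is a near symmetry of `Y` at `y` if `γ y` is a near point of `Y`
and `γ` maps the configuration of radius `r` at `y` to that at `γ y`. Let `P = n!`. For near symmetries `a`, `b` the words in `a ^ P`,
`b ^ P` with exponent sums zero have no local half-space `w` with `e w < w` (a signed count of half-spaces is additive), so they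
generate a group with a bounded orbit; this fixes two distant vertices up to finite index if some near symmetry has
unbounded orbits. So the `Q`-th powers of all near symmetries commute, `Q` depends on `n`, `k`, `N` only.

(6) Objects (`H1/CG`, `H1/CH`). Let `A` be the abelian group generated by the `Q`-th powers and `E(A)` the set of the elements with a power
in `A`. There are at most `2 n` classes of half-spaces moved by `A`, so among `2 n + 1` increasing such groups two consecutive ones
have the same `E`: some `E(A)` is the same for all positions near `y`. Its stabiliser is in `C`: up to finite index it is a directed
union of centralisers of elements `c` with unbounded orbits, and these are up to finite index subgroups of products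
`Stab(w) × ℤ`.

(7) Nets (`H25/CN`, `H59/CN`). If no near symmetry has unbounded orbits then all near symmetries at `y` generate a group with a
bounded orbit, which is in `C` (it fixes a vertex up to finite index, `H54/CW`). A local rule (Linial: the locality radius depends
on the number of labels only through the iterated logarithm `log log`, a greedy choice) selects a net of positions, so the sets
of the points whose net contains a given class of positions are wide. The order of the cover depends on `n` only (packing:
Dilworth). The constants (`H37/CD/Cst`) are polynomials in a parameter `L`, the labels are exponential in `L`.
-/

set_option autoImplicit false

namespace Pool.Agent.Results.MP_2a547c_gt.CubeComplexes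

open Pool.Agent.H98.FJ Pool.Agent.H76.GT Pool.Agent.H37.MG

theorem result (C : (G : Type) → [Group G] → Prop) (hC : Inherits C) (hT : Transfer C) (G : Type) [Group G]
    (h : ∀ K : Subgroup G, K.FG → ∃ (V : Type) (_ : MulAction K V) (X : SimpleGraph V) (n k N : ℕ), Median X ∧
      (∀ (g : K) (a b : V), X.Adj a b → X.Adj (g • a) (g • b)) ∧ (∀ f, ¬ IsCube X (n + 1) f) ∧
      (∀ v : V, C (MulAction.stabilizer K v)) ∧
      ∀ v w : V, k ≤ X.dist v w → {g : K | g • v = v ∧ g • w = w}.encard ≤ N) : C G :=
  median_main hC hT G h

end Pool.Agent.Results.MP_2a547c_gt.CubeComplexes
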