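import Pool.Agent.H37.CE.Fin

/-!
# Actions on finite-dimensional CAT(0) cube complexes and the Farrell-Jones conjecture for A-theory

Let `C` be a class of groups with the inheritance properties `Inherits` to which the transfer criterion `Transfer` applies: a
finitely generated group `G` is in `C` if it acts on a compact contractible controlled `N`-dominated metric space `X` such that for
every finite subset `S` of `G` there is an open `G`-invariant cover of `G × X` of order at most `N + 1` with stabilisers in `C`,
whose members are equal to or disjoint from their translates, such that every set `g S × {x}` is contained in a member. The
class of the groups satisfying the Farrell-Jones conjecture for A-theory with coefficients and finite wreath products is such a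
class. A median graph is a connected graph in which any three vertices have exactly one median; these are the 1-skeleta of the
CAT(0) cube complexes (Chepoi, Gerasimov, Roller). Let every finitely generated subgroup `K` of `G` act by automorphisms on a median
graph `X` without induced `(n + 1)`-cubes such that the vertex stabilisers are in `C`. The action need not be cocompact, `X` need
not be locally finite, and no element of `K` need act properly. The subgroups `B` of `K` which fix two vertices at distance at least `k`
(`FM`) need not be finite: we assume that there are `closures` `pc B` (`Clo`) in an ordered set `I` with an action of `K` and a least
element `o`, monotone, equivariant, which do not change if `B` is replaced by a subgroup of finite index, with chains of length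
at most `m`, such that `B` has at most `N` elements if `pc B = o`, and that the stabilisers of the values `pc B ≠ o` are in `C`. We prove
that then `G` is in `C`. Examples: (a) `I = {o}`: at most `N` elements fix two vertices at distance at least `k` (weakly acylindrical
actions). (b) `pc B` = the commensurability class of `B` if `B` is infinite, `o` if `B` is finite; the stabiliser of `pc B` is the
commensurator of `B`. This is possible if the finite groups `B` have bounded order and the chains of the groups `B` in which every
member has infinite index in the next are of bounded length, for instance if they are virtually polycyclic of bounded Hirsch length.
(c) Other closures, for instance parabolic closures in graph products of torsion-free groups.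

Proof. (1) Duality (`H37/MG`, `H54/MG`). The half-spaces of `X` are a partially ordered set `H` with complements, of dimension at most
`n` (pairwise crossing half-spaces give a cube); the vertices of `X` are the ultrafilters on `H` at finite distance from a base
vertex, and the distance is the number of separating half-spaces.

(2) Induction over the dimension (`H92/CX`, `H92/CY`, `H92/CZ`). We may assume that `G` is finitely generated and that every half-space
separates two translates of the base vertex. The stabiliser of a half-space `w` acts on the half-spaces which cross `w`; the vertices
of this smaller pocset lift to vertices of `H`, so the stabiliser of `w` is in `C`.

(3) The space (`H88/CX`). `X^` is the set of the functions `ψ : H → [0, 1]` with `ψ (h*) = 1 - ψ h` and `ψ h = 0` or `ψ k = 1` for `h < k`.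
It is compact, contractible and controlled `n`-dominated (homotopies which cut the coordinates at heights depending on the depth).

(4) Windows (`H54/CV`, `H37/CC`). Let `S` generate `G`. For a half-space `h` which does not contain `g` let `τ(h)` be the least `m` such that
`h` meets `g S ^ m`, and `s(h)` the sum of the `τ(k)`, `k ≥ h`. For half-spaces of depth at most `D` with `ψ > 0` which are nested
the numbers `s` differ by at least `s / D`, so one of `n + 1` thresholds `θ` is not near any `s(h)`, and the window `U(g, ψ)` of the
half-spaces of depth at most `D` with `ψ h` near `1` and `s < θ` is the same for `g` and `g s`, up to the first half-spaces. (If there
is a fractional half-space near `g` the finite set of these is a canonical object.) The window is a finite poset of width at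
most `n`, its upward closed subsets are vertices (positions). A position is saturated if below each of its next half-spaces
there is a long chain. Among `(n + 1) ^ 2` centres and `n + 1` scales there are a centre and a scale such that the region `Y(g, ψ)`
of the saturated positions near the centre is the same for `g` and `g s`, and not empty.

(5) Near symmetries and local kernels (`H25/CN`, `H94/CL`, `H94/CM`, `H37/CE`). An element `γ` of `G` is a near symmetry of `Y` at `y` if `γ y`
is a near point of `Y` and `γ` maps the configuration of radius `r` at `y` to that at `γ y`. The local kernel `Ker r y` fixes `y` and
all half-spaces of the configuration of radius `r`; `Ker (r + t) y ≤ Ker r z` if the distance of `y` and `z` is at most `t`. If a near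
symmetry has unbounded orbits then the local kernels fix two distant vertices. If `pc (Ker r y) ≠ o` for the largest radius then,
for one of `m` radii, `pc (Ker r z)` is the same for all points `z` near `y`: a canonical object. Otherwise every subgroup which
fixes two distant vertices and is virtually contained in the local kernel has at most `N` elements. Let `P = n!`. For near
symmetries `a`, `b` the words in `a ^ P`, `b ^ P` with exponent sums zero have no local half-space `w` with `e w < w` (a signed count of
half-spaces is additive), so they generate a group with a bounded orbit, which is virtually in the local kernel. So the `Q`-th
powers of all near symmetries commute, `Q` depends on `n` and `N` only.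

(6) Objects (`H1/CI`, `H54/CB`, `H37/CE`). Let `A` be the abelian group generated by the `Q`-th powers and `E(A)` the set of the elements with
a power in `A`. The elements of `A` with bounded orbits have finite order (the translation vectors have short relations). There are at
most `2 n` classes of half-spaces moved by `A`, so among `2 n + 1` increasing such groups two consecutive ones have the same `E`:
some `E(A)` is the same for all positions near `y`. Its stabiliser is in `C`: up to finite index it is a directed union of
centralisers of elements `c` with unbounded orbits, and these are up to finite index subgroups of products `Stab(w) × ℤ`.

(7) Nets (`H25/CN`, `H59/CN`). If no near symmetry has unbounded orbits then all near symmetries at `y` generate a group with a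
bounded orbit, which is in `C` (it fixes a vertex up to finite index, `H54/CW`). A local rule (Linial: the locality radius depends
on the number of labels only through the iterated logarithm `log log`, a greedy choice) selects a net of positions, so the sets
of the points whose net contains a given class of positions are wide. The order of the cover depends on `n` and `m` only (packing:
Dilworth). The constants (`H37/CE/Cst`) are polynomials in a parameter `L`, the labels are exponential in `L`.
-/

set_option autoImplicit false

namespace Pool.Agent.Results.MP_2a547c_gt.CubeComplexes

open Pool.Agent.H98.FJ Pool.Agent.H76.GT Pool.Agent.H37.MG

theorem result (C : (G : Type) → [Group G] → Prop) (hC : Inherits C) (hT : Transfer C) (G : Type) [Group G]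
    (h : ∀ K : Subgroup G, K.FG → ∃ (V : Type) (_ : MulAction K V) (X : SimpleGraph V) (n : ℕ) (I : Type) (_ : PartialOrder I)
      (_ : MulAction K I) (k N m : ℕ) (o : I) (pc : Subgroup K → I), Median X ∧
      (∀ (g : K) (a b : V), X.Adj a b → X.Adj (g • a) (g • b)) ∧ (∀ f, ¬ IsCube X (n + 1) f) ∧
      (∀ v : V, C (MulAction.stabilizer K v)) ∧ Clo X k N m o pc ∧
      ∀ B : Subgroup K, FM X k B → pc B ≠ o → C (MulAction.stabilizer K (pc B))) : C G :=
  Pool.Agent.H37.CE.median_main3 hC hT G h

end Pool.Agent.Results.MP_2a547c_gt.CubeComplexes
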